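import Mathlib
import Pool.Agent.Q225.MG.Rows

/-!
# Windows inside the rows of Maier's matrix (job MAT, helper225)
-/

set_option autoImplicit false

open Finset Filter Topology
open Pool.Agent.H378R2

namespace Pool.Agent.Q225.MG

open Pool.Agent.H510R2.Maier

/-- consecutive windows -/
theorem cnt_sum (n y k : ℕ) : ∑ j ∈ range k, (cnt (n + j * y) y : ℝ) = cnt n (k * y) := by
  simp only [cnt_pi]
  have h := Finset.sum_range_sub (fun j => (Nat.primeCounting (n + j * y) : ℝ)) k
  simp only [zero_mul, add_zero] at h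
  rw [← h]
  refine Finset.sum_congr rfl fun j _ => ?_
  have : n + j * y + y = n + (j + 1) * y := by ring
  rw [this]

theorem cnt_card (n Y : ℕ) : ((Ioc n (n + Y)).filter Nat.Prime).card = cnt n Y := by
  unfold cnt
  symm
  refine Finset.card_bij (fun h _ => n + h) ?_ ?_ ?_
  · intro h hh
    have h1 := Finset.mem_filter.1 hh
    have h2 := Finset.mem_Icc.1 h1.1
    exact Finset.mem_filter.2 ⟨Finset.mem_Ioc.2 (by omega), h1.2⟩
  · intro a _ b _ hab
    omega
  · intro m hm
    have h1 := Finset.mem_filter.1 hm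
    have h2 := Finset.mem_Ioc.1 h1.1
    refine ⟨m - n, Finset.mem_filter.2 ⟨Finset.mem_Icc.2 (by omega), ?_⟩, by omega⟩
    rw [show n + (m - n) = m by omega]
    exact h1.2

/-- the number of bad windows of a row -/
noncomputable def bad (y k : ℕ) (G : ℝ) (n : ℕ) : ℕ :=
  by classical exact ((range k).filter (fun j => G < (cnt (n + j * y) y : ℝ))).card

/-- the number of good windows of a row -/
noncomputable def good (y k : ℕ) (G : ℝ) (n : ℕ) : ℕ :=
  by classical exact ((range k).filter (fun j => (cnt (n + j * y) y : ℝ) ≤ G)).card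

theorem good_add_bad (y k : ℕ) (G : ℝ) (n : ℕ) : (good y k G n : ℝ) + bad y k G n = k := by
  classical
  have h : good y k G n + bad y k G n = k := by
    unfold good bad
    have h1 := Finset.card_filter_add_card_filter_not (s := range k)
      (fun j => (cnt (n + j * y) y : ℝ) ≤ G)
    simp only [not_le, Finset.card_range] at h1
    exact h1
  exact_mod_cast h

theorem bad_mul_le (y k : ℕ) {G : ℝ} (hG : 0 ≤ G) (n : ℕ) :
    G * bad y k G n ≤ cnt n (k * y) := by
  classical
  rw [← cnt_sum]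
  have h1 : G * (bad y k G n : ℝ) = ∑ j ∈ (range k).filter (fun j => G < (cnt (n + j * y) y : ℝ)), G := by
    unfold bad
    rw [Finset.sum_const, nsmul_eq_mul, mul_comm]
  rw [h1]
  refine (Finset.sum_le_sum (fun j hj => (Finset.mem_filter.1 hj).2.le)).trans ?_
  exact Finset.sum_le_sum_of_subset_of_nonneg (Finset.filter_subset _ _) fun _ _ _ => Nat.cast_nonneg _

open Classical in
/-- the good windows -/
noncomputable def tgt (X : ℝ) (x y : ℕ) (G : ℝ) : Finset ℕ :=
  (Icc 1 (⌊3 * X⌋₊ + x)).filter (fun m => X < m ∧ (cnt m y : ℝ) ≤ G)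

theorem count_windows (X : ℝ) (hX : 0 < X) (W r x y k : ℕ) (hk : 0 < k) (hky : k * y ≤ x) (G N1 a : ℝ)
    (hN1 : N1 = ∑ n ∈ Icc 1 ⌊3 * X⌋₊, nu X W r n)
    (h : ∑ n ∈ Icc 1 ⌊3 * X⌋₊, nu X W r n * bad y k G n ≤ (1 - a) * k * N1) :
    a * N1 ≤ (tgt X x y G).card := by
  classical
  -- the good pairs
  set R := rowset X (fun _ => True) with hR
  set P := (R ×ˢ range k).filter (fun q : ℕ × ℕ => (cnt (q.1 + q.2 * y) y : ℝ) ≤ G) with hP
  have h1 : ∑ n ∈ Icc 1 ⌊3 * X⌋₊, nu X W r n * good y k G n = k * N1 -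
      ∑ n ∈ Icc 1 ⌊3 * X⌋₊, nu X W r n * bad y k G n := by
    rw [hN1, Finset.mul_sum, ← Finset.sum_sub_distrib]
    refine Finset.sum_congr rfl fun n _ => ?_
    have := good_add_bad y k G n
    rw [← this]
    ring
  have h2 : a * k * N1 ≤ ∑ n ∈ Icc 1 ⌊3 * X⌋₊, nu X W r n * good y k G n := by
    rw [h1]
    nlinarith
  have h3 : ∑ n ∈ Icc 1 ⌊3 * X⌋₊, nu X W r n * good y k G n ≤ ∑ n ∈ R, (good y k G n : ℝ) := by
    have e1 := rowset_sum X hX W r (fun _ => True) (fun n => (good y k G n : ℝ))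
    have e2 : rowset X (fun _ => ¬ True) = ∅ := by
      ext n
      simp [mem_rowset]
    rw [e2, Finset.sum_empty, add_zero] at e1
    rw [e1]
    refine Finset.sum_le_sum fun n _ => ?_
    have e3 := nu_le_one X W r n
    have e4 : (0 : ℝ) ≤ good y k G n := Nat.cast_nonneg _
    nlinarith
  have h4 : ∑ n ∈ R, (good y k G n : ℝ) = P.card := by
    have e1 : P.card = ∑ n ∈ R, good y k G n := by
      rw [hP, Finset.card_filter, Finset.sum_product]
      refine Finset.sum_congr rfl fun n _ => ?_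
      unfold good
      rw [Finset.card_filter]
    rw [e1]
    push_cast
    rfl
  have h5 : P.card ≤ k * (P.image (fun q : ℕ × ℕ => q.1 + q.2 * y)).card := by
    refine Finset.card_le_mul_card_image P k fun m _ => ?_
    have e1 : ((P.filter (fun q : ℕ × ℕ => q.1 + q.2 * y = m)).image Prod.snd).card =
        (P.filter (fun q : ℕ × ℕ => q.1 + q.2 * y = m)).card := by
      refine Finset.card_image_of_injOn ?_
      intro q hq q' hq' hqq
      have e2 := (Finset.mem_filter.1 hq).2
      have e3 := (Finset.mem_filter.1 hq').2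
      have e4 : q.2 = q'.2 := hqq
      rw [e4] at e2
      exact Prod.ext (by omega) e4
    rw [← e1]
    calc _ ≤ (range k).card := by
          refine Finset.card_le_card ?_
          intro j hj
          obtain ⟨q, hq, rfl⟩ := Finset.mem_image.1 hj
          exact (Finset.mem_product.1 (Finset.mem_filter.1 (Finset.mem_filter.1 hq).1).1).2
      _ = k := Finset.card_range k
  have h6 : P.image (fun q : ℕ × ℕ => q.1 + q.2 * y) ⊆ tgt X x y G := by
    intro m hm
    obtain ⟨q, hq, rfl⟩ := Finset.mem_image.1 hm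
    have e1 := Finset.mem_filter.1 hq
    have e2 := Finset.mem_product.1 e1.1
    have e3 := mem_rowset.1 e2.1
    have e4 := Finset.mem_range.1 e2.2
    have e5 : q.2 * y ≤ x := (Nat.mul_le_mul_right y e4.le).trans hky
    refine Finset.mem_filter.2 ⟨Finset.mem_Icc.2 ⟨by omega, by omega⟩, ?_, e1.2⟩
    push_cast
    have e6 : (0 : ℝ) ≤ (q.2 : ℝ) * y := by positivity
    linarith [e3.2.1]
  have h7 : (P.card : ℝ) ≤ k * (tgt X x y G).card := by
    have : P.card ≤ k * (tgt X x y G).card := h5.trans (Nat.mul_le_mul_left k (Finset.card_le_card h6))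
    exact_mod_cast this
  have hk' : (0 : ℝ) < k := by exact_mod_cast hk
  have h8 : k * (a * N1) ≤ k * ((tgt X x y G).card : ℝ) := by
    calc k * (a * N1) = a * k * N1 := by ring
      _ ≤ _ := h2.trans (h3.trans (h4.le.trans h7))
  exact le_of_mul_le_mul_left h8 hk'

/-- the bad windows are few if the rows have few primes -/
theorem bad_le (X : ℝ) (hX : 1 < X) (W r x y k : ℕ) (hky : k * y ≤ x) {G T : ℝ} (hG : 0 < G)
    (h : ∑ n ∈ Icc 1 ⌊3 * X⌋₊, nu X W r n * thw n x ≤ T) :
    Real.log X * G * ∑ n ∈ Icc 1 ⌊3 * X⌋₊, nu X W r n * bad y k G n ≤ T := by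
  have hX0 : 0 < X := by linarith
  have hl : 0 < Real.log X := Real.log_pos hX
  refine le_trans ?_ h
  rw [Finset.mul_sum]
  refine Finset.sum_le_sum fun n _ => ?_
  by_cases hn : X < n ∧ (n : ℝ) < 3 * X
  · have e1 := bad_mul_le y k hG.le n
    have e2 : (cnt n (k * y) : ℝ) ≤ cnt n x := by exact_mod_cast Pool.Agent.H510R2.Maier.G.cnt_mono n hky
    have e3 := thw_ge n x X hX0 hn.1
    have e4 := nu_nonneg X W r n
    calc Real.log X * G * (nu X W r n * bad y k G n) = nu X W r n * (Real.log X * (G * bad y k G n)) := by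
          ring
      _ ≤ nu X W r n * (Real.log X * cnt n x) := by
          refine mul_le_mul_of_nonneg_left (mul_le_mul_of_nonneg_left (e1.trans e2) hl.le) e4
      _ ≤ nu X W r n * thw n x := mul_le_mul_of_nonneg_left e3 e4
  · rw [nu_eq_zero hX0 hn, zero_mul, zero_mul, mul_zero]

end Pool.Agent.Q225.MG
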