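import Mathlib
import Pool.Agent.Q225.MG.Win
import Pool.Agent.Q225.MG.Rgh
import Pool.Agent.Q120.MG.Stm

/-!
# The rows `n ≡ 0` of Maier's matrix and initial segments with few sifted numbers (job MAT, helper225)
-/

set_option autoImplicit false

open Finset Filter Topology
open Pool.Agent.H378R2

namespace Pool.Agent.Q225.MG

open Pool.Agent.H510R2.Maier
open Pool.Agent.H510R2.Maier.G (VV_zero_HH QQ_ev log_z tendsto_z)
open Pool.Agent.Q120.MG (Vf Wf)

theorem Vf_succ (z : ℕ) : Vf (z + 1) = QQ z := by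
  unfold Vf QQ
  refine Finset.prod_congr ?_ fun _ _ => rfl
  ext p
  simp only [Finset.mem_filter, Finset.mem_range, Finset.mem_Icc]
  constructor
  · rintro ⟨h1, h2⟩
    exact ⟨⟨h2.one_lt.le, by omega⟩, h2⟩
  · rintro ⟨h1, h2⟩
    exact ⟨by omega, h2⟩

theorem Wf_rough (z T : ℕ) : Wf z 0 T = (Rgh.roughSet T z).card := by
  classical
  unfold Wf
  congr 1
  ext n
  rw [Finset.mem_filter, Finset.mem_Ioc, Rgh.mem_roughSet]
  constructor
  · rintro ⟨h1, h2⟩
    exact ⟨by omega, fun q hq hd => not_lt.1 fun h => h2 q hq h hd⟩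
  · rintro ⟨h1, h2⟩
    exact ⟨by omega, fun q hq hlt hd => absurd (h2 q hq hd) (not_le.2 hlt)⟩

theorem Wf_le (z T : ℕ) (hz : 2 ≤ z) : (Wf z 0 T : ℝ) ≤ 1 + 25 * T / Real.log z := by
  have hlz : 0 < Real.log z := Real.log_pos (by exact_mod_cast hz)
  rcases le_or_gt z T with h | h
  · rw [Wf_rough]
    have h1 := Rgh.rough_card hz h
    have h2 : ((Rgh.roughSet T z).card : ℝ) ≤ 25 * T / Real.log z := by
      rw [le_div_iff₀ hlz]
      exact h1
    linarith
  · have h1 : Wf z 0 T ≤ 1 := by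
      rw [Wf_rough]
      have h2 : Rgh.roughSet T z ⊆ {1} := by
        intro n hn
        have h3 := Rgh.mem_roughSet.1 hn
        rw [Finset.mem_singleton]
        by_contra hne
        have h4 := h3.2 n.minFac (Nat.minFac_prime hne) (Nat.minFac_dvd n)
        have h5 := Nat.minFac_le (show 0 < n by omega)
        omega
      exact (Finset.card_le_card h2).trans (by simp)
    have h2 : (Wf z 0 T : ℝ) ≤ 1 := by exact_mod_cast h1
    have h3 : 0 ≤ 25 * (T : ℝ) / Real.log z := by positivity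
    linarith

theorem GG_split (z : ℕ) (S : Finset ℕ) (T : ℕ) :
    (GG z S T).card ≤ Wf (z + 1) 0 T + ∑ q ∈ S, T / q := by
  classical
  have h1 : GG z S T ⊆ ((Ioc 0 (0 + T)).filter (fun n => ∀ p : ℕ, p.Prime → p < z + 1 → ¬ p ∣ n)) ∪
      S.biUnion (fun q => (Icc 1 T).filter (fun h => q ∣ h)) := by
    intro m hm
    have hm' := mem_GG.1 hm
    rw [Finset.mem_union]
    by_cases hS : ∃ q ∈ S, q ∣ m
    · obtain ⟨q, hq, hd⟩ := hS
      right
      exact Finset.mem_biUnion.2 ⟨q, hq, Finset.mem_filter.2 ⟨Finset.mem_Icc.2 hm'.1, hd⟩⟩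
    · left
      push Not at hS
      refine Finset.mem_filter.2 ⟨Finset.mem_Ioc.2 (by omega), fun p hp hlt hd => ?_⟩
      rcases hm'.2 p hp hd with h | h
      · omega
      · exact hS p h hd
  refine (Finset.card_le_card h1).trans ?_
  refine (Finset.card_union_le _ _).trans ?_
  refine Nat.add_le_add (le_of_eq ?_) ?_
  · unfold Wf
    congr
  · refine Finset.card_biUnion_le.trans (Finset.sum_le_sum fun q _ => ?_)
    rw [show (Icc 1 T) = Ioc 0 T from rfl, Nat.Ioc_filter_dvd_card_eq_div]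

theorem S_part' {L : ℝ} (T : ℕ) (S : Finset ℕ) (hS : ∑ q ∈ S, (1 : ℝ) / q ≤ 6 / (Real.log L) ^ 2) :
    ∑ q ∈ S, ((T / q : ℕ) : ℝ) ≤ T * (6 / (Real.log L) ^ 2) := by
  calc ∑ q ∈ S, ((T / q : ℕ) : ℝ) ≤ ∑ q ∈ S, (T : ℝ) * (1 / q) := by
        apply Finset.sum_le_sum
        intro q _
        refine Nat.cast_div_le.trans ?_
        rw [mul_one_div]
    _ = T * ∑ q ∈ S, (1 : ℝ) / q := by rw [Finset.mul_sum]
    _ ≤ T * (6 / (Real.log L) ^ 2) := by gcongr

theorem polylog (C D δ : ℝ) (hC : 0 < C) (hD : 1 ≤ D) (hδ : 0 < δ) : ∃ x₁ : ℕ, ∀ x : ℕ, x₁ ≤ x →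
    ((Nat.log 2 x : ℝ) + 81) * C * (Real.log D + Real.log x) ≤ δ * x := by
  have h1 := (Real.isLittleO_pow_log_id_atTop (n := 2)).bound
    (show (0 : ℝ) < δ / (83 * C * (Real.log D + 1)) by
      have := Real.log_nonneg hD
      positivity)
  have h2 := tendsto_natCast_atTop_atTop (R := ℝ) |>.eventually h1
  have h3 := tendsto_natCast_atTop_atTop (R := ℝ) |>.eventually_ge_atTop (Real.exp 1)
  obtain ⟨x₁, hx₁⟩ := eventually_atTop.1 (h2.and h3)
  refine ⟨x₁, fun x hx => ?_⟩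
  obtain ⟨h4, h5⟩ := hx₁ x hx
  have he : 1 < Real.exp 1 := Real.one_lt_exp_iff.2 one_pos
  have hx0 : (0 : ℝ) < x := by linarith
  have hl : 1 ≤ Real.log x := by
    rw [Real.le_log_iff_exp_le hx0]
    exact h5
  have hlD := Real.log_nonneg hD
  rw [id, Real.norm_of_nonneg (pow_nonneg (by linarith) 2), Real.norm_of_nonneg hx0.le] at h4
  have h8 : (Nat.log 2 x : ℝ) ≤ 2 * Real.log x := by
    have h9 := Real.natLog_le_logb x 2
    have h10 : Real.logb 2 x ≤ 2 * Real.log x := by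
      unfold Real.logb
      rw [div_le_iff₀ (Real.log_pos (by norm_num))]
      have := Real.log_two_gt_d9
      nlinarith
    have h11 : ((2 : ℕ) : ℝ) = 2 := by norm_num
    rw [h11] at h9
    linarith
  calc ((Nat.log 2 x : ℝ) + 81) * C * (Real.log D + Real.log x)
      ≤ (2 * Real.log x + 81 * Real.log x) * C * (Real.log D * Real.log x + Real.log x) := by
        have e1 : (Nat.log 2 x : ℝ) + 81 ≤ 2 * Real.log x + 81 * Real.log x := by linarith
        have e2 : Real.log D + Real.log x ≤ Real.log D * Real.log x + Real.log x := by nlinarith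
        have e3 : 0 ≤ Real.log D + Real.log x := by linarith
        have e4 : 0 ≤ (2 * Real.log x + 81 * Real.log x) * C := by positivity
        exact mul_le_mul (mul_le_mul_of_nonneg_right e1 hC.le) e2 e3 e4
    _ = 83 * C * (Real.log D + 1) * Real.log x ^ 2 := by ring
    _ ≤ 83 * C * (Real.log D + 1) * (δ / (83 * C * (Real.log D + 1)) * x) :=
        mul_le_mul_of_nonneg_left h4 (by positivity)
    _ = δ * x := by
        have : Real.log D + 1 ≠ 0 := by linarith
        field_simp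

/-- the rows `n ≡ 0` have few primes in the mean -/
theorem side (D : ℝ) (hD : 1000 ≤ D) (κ δ : ℝ) (hκ : κ ≤ 1) (hδ : 0 < δ) :
    ∃ Z : ℕ, ∀ᶠ X : ℝ in atTop, ∀ (ps : ℕ) (S : Finset ℕ), GoodP Z ps → GoodS X S →
      ∀ x : ℕ, ⌊Real.log X / D⌋₊ + 1 ≤ x →
      (Wf (⌊Real.log X / D⌋₊ + 1) 0 x : ℝ) ≤ (1 - κ) * (Vf (⌊Real.log X / D⌋₊ + 1) * x) →
      ((VV (WD X D S ps) 0 x : ℝ) + 80) / BE (PD X D S ps) ≤ (1 - κ + δ) * x := by
  obtain ⟨E, hE⟩ : ∃ E, E = Real.exp Real.eulerMascheroniConstant := ⟨_, rfl⟩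
  have hE0 : 0 < E := by
    rw [hE]
    exact Real.exp_pos _
  refine ⟨⌈448 * (E + 1) / δ⌉₊, ?_⟩
  obtain ⟨x₁, hx₁⟩ := polylog (E + 1) D (δ / 4) (by linarith) (by linarith) (by linarith)
  have ev : ∀ᶠ L : ℝ in atTop, ((QQ ⌊L / D⌋₊)⁻¹ ≤ (E + 1) * Real.log L) ∧
      Real.log L / 2 ≤ Real.log ⌊L / D⌋₊ ∧ 24 * (E + 1) / δ ≤ Real.log L ∧ 1 ≤ Real.log L ∧
      max x₁ 2 ≤ ⌊L / D⌋₊ ∧ 1 < L := by
    have e1 := QQ_ev D hD 1 one_pos
    rw [← hE] at e1
    filter_upwards [e1, log_z D hD, Real.tendsto_log_atTop.eventually_ge_atTop (24 * (E + 1) / δ),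
      Real.tendsto_log_atTop.eventually_ge_atTop 1, (tendsto_z D hD).eventually_ge_atTop (max x₁ 2),
      eventually_gt_atTop (1 : ℝ)] with L h1 h2 h3 h4 h5 h6
    exact ⟨h1, h2, h3, h4, h5, h6⟩
  filter_upwards [Real.tendsto_log_atTop.eventually ev, eventually_ge_atTop (1 : ℝ)] with X hX hX1
  obtain ⟨h1, h2, h3, h4, h5, h6⟩ := hX
  intro ps S hps hS x hx hW
  have hS2 := hS.2
  have hHH := VV_zero_HH D hD X hX1 S ps x
  have hQB := Pool.Agent.H510R2.Maier.G.QQ_le_BE D hD X hX1 S ps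
  obtain ⟨L, hL⟩ : ∃ L, L = Real.log X := ⟨_, rfl⟩
  rw [← hL] at h1 h2 h3 h4 h5 h6 hx hW hS2 hHH hQB
  obtain ⟨z, hz⟩ : ∃ z, z = ⌊L / D⌋₊ := ⟨_, rfl⟩
  rw [← hz] at h1 h2 h5 hx hW hHH hQB
  obtain ⟨B, hB⟩ : ∃ B, B = BE (PD X D S ps) := ⟨_, rfl⟩
  rw [← hB] at hQB ⊢
  obtain ⟨V, hV⟩ : ∃ V : ℝ, V = (VV (WD X D S ps) 0 x : ℝ) := ⟨_, rfl⟩
  rw [← hV]
  have hV1 : V ≤ (HH z S ps x).card := by
    rw [hV]
    exact_mod_cast hHH
  have hD0 : 0 < D := by linarith
  have hl : 0 < Real.log L := by linarith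
  have hz2 : 2 ≤ z := (le_max_right _ _).trans h5
  have hzx₁ : x₁ ≤ z := (le_max_left _ _).trans h5
  have hx0 : 0 < x := by omega
  have hxr : (0 : ℝ) < x := by exact_mod_cast hx0
  have hzz : Real.log z ≤ Real.log ((z + 1 : ℕ) : ℝ) := by
    apply Real.log_le_log
    · have : 0 < z := by omega
      exact_mod_cast this
    · push_cast
      linarith
  have hQ0 : 0 < QQ z := QQ_pos z
  have hB0 : 0 < B := lt_of_lt_of_le hQ0 hQB
  have hBinv : B⁻¹ ≤ (E + 1) * Real.log L := (inv_anti₀ hQ0 hQB).trans h1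
  -- all T
  have hG1 : ∀ T : ℕ, T ≤ x → ((GG z S T).card : ℝ) ≤ 1 + 56 / Real.log L * T := by
    intro T _
    have e1 : ((GG z S T).card : ℝ) ≤ Wf (z + 1) 0 T + ∑ q ∈ S, ((T / q : ℕ) : ℝ) := by
      exact_mod_cast GG_split z S T
    have e2 := Wf_le (z + 1) T (by omega)
    have e3 := S_part' T S hS2
    have hT : (0 : ℝ) ≤ T := Nat.cast_nonneg T
    have e4 : 25 * (T : ℝ) / Real.log ((z + 1 : ℕ) : ℝ) ≤ 50 / Real.log L * T := by
      have e5 : Real.log L / 2 ≤ Real.log ((z + 1 : ℕ) : ℝ) := h2.trans hzz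
      calc 25 * (T : ℝ) / Real.log ((z + 1 : ℕ) : ℝ) ≤ 25 * (T : ℝ) / (Real.log L / 2) :=
            div_le_div_of_nonneg_left (by positivity) (by positivity) e5
        _ = _ := by
            field_simp
            ring
    have e6 : (T : ℝ) * (6 / (Real.log L) ^ 2) ≤ 6 / Real.log L * T := by
      have e7 : 6 / (Real.log L) ^ 2 ≤ 6 / Real.log L := by
        apply div_le_div_of_nonneg_left (by norm_num) hl
        nlinarith
      nlinarith
    have e8 : 56 / Real.log L * (T : ℝ) = 50 / Real.log L * T + 6 / Real.log L * T := by ring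
    linarith
  -- T = x
  have hG2 : ((GG z S x).card : ℝ) ≤ (1 - κ) * (QQ z * x) + x * (6 / (Real.log L) ^ 2) := by
    have e1 : ((GG z S x).card : ℝ) ≤ Wf (z + 1) 0 x + ∑ q ∈ S, ((x / q : ℕ) : ℝ) := by
      exact_mod_cast GG_split z S x
    have e3 := S_part' x S hS2
    rw [Vf_succ] at hW
    linarith
  -- the exceptional prime
  have hV2 : V ≤ (1 - κ) * (QQ z * x) + x * (6 / (Real.log L) ^ 2) + (Nat.log 2 x + 1) +
      δ / (4 * (E + 1)) * (x / Real.log L) := by
    have hx' : 0 ≤ δ / (4 * (E + 1)) * ((x : ℝ) / Real.log L) := by positivity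
    have hlog : (0 : ℝ) ≤ Nat.log 2 x := Nat.cast_nonneg _
    rcases hps with rfl | ⟨hps, hpZ⟩
    · have g7 : ((HH z S 1 x).card : ℝ) ≤ (GG z S x).card := by
        exact_mod_cast Finset.card_le_card (HH_one z S x)
      linarith
    · have g7 : ((HH z S ps x).card : ℝ) ≤ (GG z S x).card + (HH z S ps (x / ps)).card := by
        exact_mod_cast HH_rec z S ps x hps
      have g8 := HH_bound z S ps x hps (56 / Real.log L) (by positivity) hG1 (x / ps)
        (Nat.div_le_self _ _)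
      have g9 : (Nat.log 2 (x / ps) : ℝ) ≤ Nat.log 2 x := by
        exact_mod_cast Nat.log_mono_right (Nat.div_le_self _ _)
      have g10 : 2 * (56 / Real.log L) * ((x / ps : ℕ) : ℝ) ≤ δ / (4 * (E + 1)) * (x / Real.log L) := by
        have g11 : ((x / ps : ℕ) : ℝ) ≤ x / ps := Nat.cast_div_le
        have g12 : 448 * (E + 1) / δ ≤ ps := by
          refine (Nat.le_ceil _).trans ?_
          exact_mod_cast hpZ.le
        have g13 : (0 : ℝ) < ps := by exact_mod_cast hps.pos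
        rw [div_le_iff₀ hδ] at g12
        calc 2 * (56 / Real.log L) * ((x / ps : ℕ) : ℝ) ≤ 2 * (56 / Real.log L) * (x / ps) := by gcongr
          _ = 112 / ps * (x / Real.log L) := by
              field_simp
              ring
          _ ≤ δ / (4 * (E + 1)) * (x / Real.log L) := by
              refine mul_le_mul_of_nonneg_right ?_ (by positivity)
              rw [div_le_div_iff₀ g13 (by positivity)]
              linarith
      linarith
  -- division
  have t1 : x * (6 / (Real.log L) ^ 2) * ((E + 1) * Real.log L) ≤ δ / 4 * x := by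
    have e1 : x * (6 / (Real.log L) ^ 2) * ((E + 1) * Real.log L) = x * (6 * (E + 1) / Real.log L) := by
      field_simp
    rw [e1]
    have e2 : 6 * (E + 1) / Real.log L ≤ δ / 4 := by
      rw [div_le_iff₀ hδ] at h3
      rw [div_le_iff₀ hl]
      linarith
    nlinarith
  have t2 : ((Nat.log 2 x : ℝ) + 81) * ((E + 1) * Real.log L) ≤ δ / 4 * x := by
    have e1 : Real.log L ≤ Real.log D + Real.log x := by
      rw [← Real.log_mul hD0.ne' hxr.ne']
      apply Real.log_le_log (by linarith)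
      have e2 : L / D < (z : ℝ) + 1 := by
        rw [hz]
        exact Nat.lt_floor_add_one _
      have e3 : ((z : ℝ) + 1) ≤ x := by exact_mod_cast hx
      rw [div_lt_iff₀ hD0] at e2
      nlinarith
    refine le_trans ?_ (hx₁ x (by omega))
    have e4 : (0 : ℝ) ≤ (Nat.log 2 x : ℝ) + 81 := by positivity
    calc ((Nat.log 2 x : ℝ) + 81) * ((E + 1) * Real.log L) =
          ((Nat.log 2 x : ℝ) + 81) * (E + 1) * Real.log L := by ring
      _ ≤ _ := mul_le_mul_of_nonneg_left e1 (by positivity)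
  have t3 : δ / (4 * (E + 1)) * (x / Real.log L) * ((E + 1) * Real.log L) = δ / 4 * x := by
    field_simp
  have t0 : (1 - κ) * (QQ z * x) / B ≤ (1 - κ) * x := by
    rw [div_le_iff₀ hB0]
    have e1 : 0 ≤ (1 - κ) * x := mul_nonneg (by linarith) hxr.le
    calc (1 - κ) * (QQ z * x) = ((1 - κ) * x) * QQ z := by ring
      _ ≤ ((1 - κ) * x) * B := mul_le_mul_of_nonneg_left hQB e1
  have hrest : (0 : ℝ) ≤ x * (6 / (Real.log L) ^ 2) + (Nat.log 2 x + 81) +
      δ / (4 * (E + 1)) * (x / Real.log L) := by positivity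
  calc (V + 80) / B ≤ ((1 - κ) * (QQ z * x) + (x * (6 / (Real.log L) ^ 2) + (Nat.log 2 x + 81) +
          δ / (4 * (E + 1)) * (x / Real.log L))) / B := by
        apply div_le_div_of_nonneg_right _ hB0.le
        linarith
    _ = (1 - κ) * (QQ z * x) / B + (x * (6 / (Real.log L) ^ 2) + (Nat.log 2 x + 81) +
          δ / (4 * (E + 1)) * (x / Real.log L)) * B⁻¹ := by
        rw [add_div, div_eq_mul_inv _ B, div_eq_mul_inv _ B]
    _ ≤ (1 - κ) * x + (x * (6 / (Real.log L) ^ 2) + (Nat.log 2 x + 81) +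
          δ / (4 * (E + 1)) * (x / Real.log L)) * ((E + 1) * Real.log L) :=
        add_le_add t0 (mul_le_mul_of_nonneg_left hBinv hrest)
    _ ≤ (1 - κ + δ) * x := by
        have e1 : (x * (6 / (Real.log L) ^ 2) + (Nat.log 2 x + 81) +
          δ / (4 * (E + 1)) * (x / Real.log L)) * ((E + 1) * Real.log L) =
            x * (6 / (Real.log L) ^ 2) * ((E + 1) * Real.log L) +
            ((Nat.log 2 x : ℝ) + 81) * ((E + 1) * Real.log L) +
            δ / (4 * (E + 1)) * (x / Real.log L) * ((E + 1) * Real.log L) := by ring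
        rw [e1]
        have e2 : 0 ≤ δ / 4 * (x : ℝ) := by positivity
        linarith

end Pool.Agent.Q225.MG
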