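import Mathlib
import Pool.Agent.Q225.MG.Side
import Pool.Agent.Q110.RS.M4

/-!
# Windows with few primes at every exponent (job MAT, helper225)
-/

set_option autoImplicit false

open Finset Filter Topology
open Pool.Agent.H378R2

namespace Pool.Agent.Q225.MG

open Pool.Agent.H510R2.Maier
open Pool.Agent.H510R2.Maier.G (freq_arith cnt_mono tendsto_z)
open Pool.Agent.Q110.RS.M (shift_pow)
open Pool.Agent.Q120.MG (Vf Wf DEF MAT)

theorem rpow_four {X η : ℝ} (hX : 0 < X) (hη : 0 < η) :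
    (4 * X) ^ (1 - η) ≤ 4 / 3 * (3 * X) ^ (1 - η) := by
  have h1 : 4 * X = 4 / 3 * (3 * X) := by ring
  have h2 : (4 / 3 : ℝ) ^ (1 - η) ≤ 4 / 3 := by
    calc (4 / 3 : ℝ) ^ (1 - η) ≤ (4 / 3 : ℝ) ^ (1 : ℝ) :=
          Real.rpow_le_rpow_of_exponent_le (by norm_num) (by linarith)
      _ = 4 / 3 := Real.rpow_one _
  rw [h1, Real.mul_rpow (by norm_num) (by positivity)]
  exact mul_le_mul_of_nonneg_right h2 (Real.rpow_nonneg (by positivity) _)

theorem row_long {a c' D u : ℝ} (ha : 0 < a) (hc' : 0 < c') (hD : 1000 ≤ D) (hu : 2 ≤ u) :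
    ∀ᶠ L : ℝ in atTop, (1 / a + 2) * (c' * L ^ u) ≤ (L / D) ^ (u + 1) := by
  have hD0 : 0 < D := by linarith
  filter_upwards [eventually_ge_atTop ((1 / a + 2) * c' * D ^ (u + 1)), eventually_gt_atTop (0 : ℝ)]
    with L h1 h2
  rw [Real.div_rpow h2.le hD0.le, le_div_iff₀ (Real.rpow_pos_of_pos hD0 _), Real.rpow_add_one h2.ne']
  have h3 : 0 < L ^ u := Real.rpow_pos_of_pos h2 _
  calc (1 / a + 2) * (c' * L ^ u) * D ^ (u + 1) = ((1 / a + 2) * c' * D ^ (u + 1)) * L ^ u := by ring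
    _ ≤ L * L ^ u := mul_le_mul_of_nonneg_right h1 h3.le
    _ = L ^ u * L := mul_comm _ _

/-- few bad windows -/
theorem few_bad {κ0 a cL y x k N1 Sb L G T : ℝ} (hκ0 : 0 < κ0) (hκ1 : κ0 < 1) (ha : a = κ0 / 16)
    (hL : 0 < L) (hG : L * G = (1 - κ0 / 4) * cL) (hy : y ≤ (1 + a) * cL) (hy0 : 0 < y)
    (hx : x ≤ (1 + a) * (k * y)) (hk : 0 < k) (hN1 : 0 ≤ N1) (hSb : 0 ≤ Sb)
    (hT : T ≤ (1 + a) * ((1 - 7 * κ0 / 8) * x) * N1) (h : L * G * Sb ≤ T) :
    Sb ≤ (1 - κ0 / 4) * k * N1 := by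
  have ha0 : 0 < a := by rw [ha]; positivity
  have hκ : 0 < 1 - κ0 / 4 := by linarith
  have e1 : (1 - κ0 / 4) * (y * Sb) ≤ (1 + a) * (L * G * Sb) := by
    rw [hG]
    have : (1 - κ0 / 4) * (y * Sb) ≤ (1 - κ0 / 4) * (((1 + a) * cL) * Sb) :=
      mul_le_mul_of_nonneg_left (mul_le_mul_of_nonneg_right hy hSb) hκ.le
    linarith
  have e2 : L * G * Sb ≤ (1 + a) * ((1 - 7 * κ0 / 8) * ((1 + a) * (k * y))) * N1 := by
    refine h.trans (hT.trans ?_)
    have h7 : 0 ≤ 1 - 7 * κ0 / 8 := by linarith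
    exact mul_le_mul_of_nonneg_right (mul_le_mul_of_nonneg_left (mul_le_mul_of_nonneg_left hx h7)
      (by linarith)) hN1
  have e3 : (1 + a) ^ 3 * (1 - 7 * κ0 / 8) ≤ (1 - κ0 / 4) * (1 - κ0 / 4) := by
    have h1 : (1 + a) ^ 3 ≤ 1 + 4 * a := by
      have : a ≤ 1 / 16 := by rw [ha]; linarith
      nlinarith [mul_pos ha0 ha0]
    have h2 : (1 + a) ^ 3 * (1 - 7 * κ0 / 8) ≤ (1 + 4 * a) * (1 - 7 * κ0 / 8) :=
      mul_le_mul_of_nonneg_right h1 (by linarith)
    refine h2.trans ?_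
    rw [ha]
    nlinarith [mul_pos hκ0 hκ0]
  have e4 : y * ((1 - κ0 / 4) * Sb) ≤ y * ((1 - κ0 / 4) * ((1 - κ0 / 4) * k * N1)) := by
    calc y * ((1 - κ0 / 4) * Sb) = (1 - κ0 / 4) * (y * Sb) := by ring
      _ ≤ (1 + a) * ((1 + a) * ((1 - 7 * κ0 / 8) * ((1 + a) * (k * y))) * N1) :=
          e1.trans (mul_le_mul_of_nonneg_left e2 (by linarith))
      _ = ((1 + a) ^ 3 * (1 - 7 * κ0 / 8)) * (k * y * N1) := by ring
      _ ≤ ((1 - κ0 / 4) * (1 - κ0 / 4)) * (k * y * N1) :=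
          mul_le_mul_of_nonneg_right e3 (by positivity)
      _ = _ := by ring
  exact le_of_mul_le_mul_left (le_of_mul_le_mul_left e4 hy0) hκ

theorem mat (d : DEF) : MAT := by
  classical
  intro u hu
  obtain ⟨S', κ0, hκ0, hκ1, z₀, hd⟩ := d (u + 1) (by linarith)
  refine ⟨1 - κ0 / 4, by linarith, by linarith, ?_⟩
  intro c η hc hη
  obtain ⟨D, hDdef⟩ : ∃ D, D = max 1000 (3 / η) := ⟨_, rfl⟩
  have hD : 1000 ≤ D := by rw [hDdef]; exact le_max_left _ _
  have hD2 : 3 / η ≤ D := by rw [hDdef]; exact le_max_right _ _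
  have hD0 : 0 < D := by linarith
  obtain ⟨a, ha⟩ : ∃ a, a = κ0 / 16 := ⟨_, rfl⟩
  have ha0 : 0 < a := by rw [ha]; positivity
  obtain ⟨c', hc'⟩ : ∃ c', c' = c * (1 + a) := ⟨_, rfl⟩
  have hcc' : c < c' := by
    rw [hc']
    nlinarith
  have hc'0 : 0 < c' := hc.trans hcc'
  obtain ⟨K, hK⟩ : ∃ K, K = ⌈S'⌉₊ := ⟨_, rfl⟩
  obtain ⟨ε, hε⟩ : ∃ ε, ε = κ0 / 8 := ⟨_, rfl⟩
  have hε0 : 0 < ε := by rw [hε]; positivity
  have hε1 : ε ≤ 1 := by rw [hε]; linarith
  obtain ⟨Z, hZ⟩ := side D hD κ0 (κ0 / 8) hκ1.le (by positivity)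
  obtain ⟨X0, hX0⟩ := rows_sumsK K (ε / 2) (by positivity) (by linarith) Z D hD
  have e3 := shift_pow hc hcc' (show 0 < u by linarith)
  have e4 := freq_arith η hη (3 * κ0 / 640) (by positivity) D hD2
  have e5 : ∀ᶠ L : ℝ in atTop, z₀ ≤ ⌊L / D⌋₊ ∧ (1 / a + 2) * (c' * L ^ u) ≤ (L / D) ^ (u + 1) ∧
      2 ≤ L ∧ 1 ≤ c' * L ^ u := by
    filter_upwards [(tendsto_z D hD).eventually_ge_atTop z₀, row_long ha0 hc'0 hD hu,
      eventually_ge_atTop (2 : ℝ), (ttop c' u hc'0 (by linarith)).eventually_ge_atTop 1] with L h1 h2 h3 h4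
    exact ⟨h1, h2, h3, h4⟩
  have e6 : ∀ᶠ X : ℝ in atTop, (Real.log X) ^ K ≤ X := by
    have h1 := (Real.isLittleO_pow_log_id_atTop (n := K)).bound (show (0 : ℝ) < 1 by norm_num)
    filter_upwards [h1, eventually_ge_atTop (1 : ℝ)] with X h2 h3
    rw [Real.norm_of_nonneg (pow_nonneg (Real.log_nonneg h3) K), id, Real.norm_of_nonneg (by linarith)] at h2
    linarith
  have key : ∀ᶠ X : ℝ in atTop, (4 * X) ^ (1 - η) ≤
      (((Icc 1 ⌊4 * X⌋₊).filter (fun n : ℕ =>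
        (((Ioc n (n + ⌊c * (Real.log n) ^ u⌋₊)).filter Nat.Prime).card : ℝ) ≤
          (1 - κ0 / 4) * (c * (Real.log n) ^ (u - 1)))).card : ℝ) := by
    filter_upwards [hZ, eventually_ge_atTop X0, Real.tendsto_log_atTop.eventually e5,
      eventually_ge_atTop (40 : ℝ), e3, e4, e6] with X g1 g2 g3 g4 g5 g6 g7
    obtain ⟨f1, f2, f3, f4⟩ := g3
    have hXpos : 0 < X := by linarith
    obtain ⟨ps, S, hps, hS, hr⟩ := hX0 X g2
    obtain ⟨L, hL⟩ : ∃ L, L = Real.log X := ⟨_, rfl⟩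
    have hL0 : 0 < L := by rw [hL]; linarith
    obtain ⟨zz, hzz⟩ : ∃ zz, zz = ⌊Real.log X / D⌋₊ + 1 := ⟨_, rfl⟩
    obtain ⟨x, hx1, hx2, hx3⟩ := hd zz (by omega)
    have hside := g1 ps S hps hS x
    rw [← hzz] at hside
    rw [← hL] at f2 f3 f4 g5 g6 g7
    have hzz1 : (1 : ℝ) ≤ zz := by
      rw [hzz]
      push_cast
      have : (0 : ℝ) ≤ ⌊Real.log X / D⌋₊ := Nat.cast_nonneg _
      linarith
    have hzzge : L / D ≤ zz := by
      rw [hzz, hL]
      push_cast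
      exact (Nat.lt_floor_add_one _).le
    have hzzle : (zz : ℝ) ≤ L := by
      rw [hzz, ← hL]
      push_cast
      have h1 : (⌊L / D⌋₊ : ℝ) ≤ L / D := Nat.floor_le (by positivity)
      have h2 : L / D ≤ L / 2 := div_le_div_of_nonneg_left hL0.le (by norm_num) (by linarith)
      linarith
    -- the length of the rows
    have hxK : (x : ℝ) ≤ L ^ K := by
      have h1 : (zz : ℝ) ^ S' ≤ (zz : ℝ) ^ (K : ℝ) := by
        apply Real.rpow_le_rpow_of_exponent_le hzz1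
        rw [hK]
        exact Nat.le_ceil _
      rw [Real.rpow_natCast] at h1
      exact hx2.trans (h1.trans (pow_le_pow_left₀ (by linarith) hzzle K))
    have hxX : (x : ℝ) ≤ X := hxK.trans g7
    have hzx : zz ≤ x := by
      have h1 : (zz : ℝ) ≤ x := by
        refine le_trans ?_ hx1
        calc (zz : ℝ) = (zz : ℝ) ^ (1 : ℝ) := (Real.rpow_one _).symm
          _ ≤ (zz : ℝ) ^ (u + 1) := Real.rpow_le_rpow_of_exponent_le hzz1 (by linarith)
      exact_mod_cast h1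
    have g8 := hside hzx hx3
    obtain ⟨-, r2, r3, -⟩ := hr 0 x (by rw [← hL]; exact hxK)
    -- the windows
    obtain ⟨y, hy⟩ : ∃ y, y = ⌊c' * L ^ u⌋₊ := ⟨_, rfl⟩
    have hy0 : 0 < y := by
      rw [hy]
      exact Nat.floor_pos.2 f4
    have hyr : (0 : ℝ) < y := by exact_mod_cast hy0
    have hyle : (y : ℝ) ≤ c' * L ^ u := by
      rw [hy]
      exact Nat.floor_le (by positivity)
    obtain ⟨k, hk⟩ : ∃ k, k = x / y := ⟨_, rfl⟩
    have hky : k * y ≤ x := by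
      rw [hk]
      exact Nat.div_mul_le_self x y
    have hkx : (x : ℝ) ≤ (k + 1) * y := by
      have h1 : x < (k + 1) * y := by
        rw [hk]
        have := Nat.lt_mul_div_succ x hy0
        rw [mul_comm]
        exact this
      exact_mod_cast h1.le
    have hkbig : 1 / a + 1 ≤ k := by
      have h1 : (1 / a + 2) * (y : ℝ) ≤ (k + 1) * y := by
        refine le_trans ?_ hkx
        refine le_trans ?_ hx1
        refine le_trans (mul_le_mul_of_nonneg_left hyle (by positivity)) ?_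
        refine f2.trans ?_
        exact Real.rpow_le_rpow (by positivity) hzzge (by linarith)
      have h2 := le_of_mul_le_mul_right h1 hyr
      linarith
    have h1a : 0 < 1 / a := by positivity
    have hk0r : (0 : ℝ) < k := by linarith
    have hk0 : 0 < k := by exact_mod_cast hk0r
    have hak : 1 ≤ a * k := by
      have h1 : 1 / a ≤ k := by linarith
      rw [div_le_iff₀ ha0] at h1
      linarith
    have hxk : (x : ℝ) ≤ (1 + a) * (k * y) := by
      refine hkx.trans ?_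
      have h1 : (1 : ℝ) * y ≤ (a * k) * y := mul_le_mul_of_nonneg_right hak hyr.le
      linarith
    -- the sums
    obtain ⟨W, hW⟩ : ∃ W, W = WD X D S ps := ⟨_, rfl⟩
    have hWle := WD_le X D hD0 (by linarith) S ps
    rw [← hW, ← hL] at hWle
    obtain ⟨B, hB⟩ : ∃ B, B = BE (PD X D S ps) := ⟨_, rfl⟩
    have hPp : ∀ p ∈ PD X D S ps, p.Prime := fun p hp => PD_prime hp
    have hB0 : 0 < B := by
      rw [hB]
      exact BE_pos hPp
    have hW0 : (0 : ℝ) < W := by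
      rw [hW]
      exact_mod_cast WD_pos X D S ps
    have hφ : (W.totient : ℝ) = W * B := by
      rw [hW, hB]
      exact totient_prod _ hPp
    have hM1 := MPhi_ge X g4
    rw [← hW] at r2 r3 g8
    rw [← hB] at g8
    obtain ⟨M, hM⟩ : ∃ M, M = MPhi X := ⟨_, rfl⟩
    rw [← hM] at r2 r3 hM1
    have hM0 : 0 < M := by linarith
    obtain ⟨V, hV⟩ : ∃ V : ℝ, V = (VV W 0 x : ℝ) := ⟨_, rfl⟩
    rw [← hV] at r2 g8
    have hV0 : 0 ≤ V := by
      rw [hV]
      exact Nat.cast_nonneg _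
    obtain ⟨N1, hN1⟩ : ∃ N1, N1 = ∑ n ∈ Icc 1 ⌊3 * X⌋₊, nu X W 0 n := ⟨_, rfl⟩
    rw [← hN1] at r3
    obtain ⟨A, hA⟩ : ∃ A, A = (V + 80) / B := ⟨_, rfl⟩
    rw [← hA] at g8
    have hA0 : 0 < A := by
      rw [hA]
      positivity
    have hMW : 0 < M / W := by positivity
    have hN1pos : 0 ≤ N1 := by
      refine le_trans ?_ r3
      have : 0 ≤ 1 - ε / 2 / 4 := by linarith
      positivity
    have hT : ∑ n ∈ Icc 1 ⌊3 * X⌋₊, nu X W 0 n * thw n x ≤ (1 + ε / 2) * A * N1 := by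
      refine r2.trans ?_
      have hMφ : 0 < M / W.totient := by rw [hφ]; positivity
      calc (1 + ε / 2 / 4) * (V * (M / W.totient)) + 40 * (M / W.totient)
          ≤ (1 + ε / 2 / 4) * ((V + 80) * (M / W.totient)) := by nlinarith
        _ = (1 + ε / 2 / 4) * A * (M / W) := by
            rw [hA, hφ]; field_simp
        _ ≤ ((1 + ε / 2) * (1 - ε / 2 / 4)) * A * (M / W) := by
            have q1 : 1 + ε / 2 / 4 ≤ (1 + ε / 2) * (1 - ε / 2 / 4) := by nlinarith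
            exact mul_le_mul_of_nonneg_right (mul_le_mul_of_nonneg_right q1 hA0.le) hMW.le
        _ = (1 + ε / 2) * A * ((1 - ε / 2 / 4) * (M / W)) := by ring
        _ ≤ (1 + ε / 2) * A * N1 := by
            apply mul_le_mul_of_nonneg_left r3
            positivity
    have hT2 : (1 + ε / 2) * A * N1 ≤ (1 + a) * ((1 - 7 * κ0 / 8) * x) * N1 := by
      have h1 : 1 + ε / 2 = 1 + a := by rw [hε, ha]; ring
      have h2 : A ≤ (1 - 7 * κ0 / 8) * x := by
        refine g8.trans (le_of_eq ?_)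
        ring
      rw [h1]
      exact mul_le_mul_of_nonneg_right (mul_le_mul_of_nonneg_left h2 (by linarith)) hN1pos
    obtain ⟨G, hG⟩ : ∃ G, G = (1 - κ0 / 4) * (c * L ^ (u - 1)) := ⟨_, rfl⟩
    have hκ : 0 < 1 - κ0 / 4 := by linarith
    have hG0 : 0 < G := by
      rw [hG]
      exact mul_pos hκ (mul_pos hc (Real.rpow_pos_of_pos hL0 _))
    have hLG : L * G = (1 - κ0 / 4) * (c * L ^ u) := by
      have hLu : L ^ u = L * L ^ (u - 1) := by
        rw [← Real.rpow_one_add' (by linarith) (by linarith)]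
        congr 1
        ring
      rw [hG, hLu]
      ring
    have hbad := bad_le X (by linarith) W 0 x y k hky hG0 hT
    rw [← hL] at hbad
    have hSb0 : 0 ≤ ∑ n ∈ Icc 1 ⌊3 * X⌋₊, nu X W 0 n * bad y k G n :=
      Finset.sum_nonneg fun n _ => mul_nonneg (nu_nonneg _ _ _ _) (Nat.cast_nonneg _)
    have hfew := few_bad (κ0 := κ0) (a := a) (cL := c * L ^ u) (y := y) (x := x) (k := k) (N1 := N1)
      hκ0 hκ1 ha hL0 hLG (by
        rw [hc'] at hyle
        linarith) hyr hxk hk0r hN1pos hSb0 hT2 hbad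
    have hcnt := count_windows X hXpos W 0 x y k hk0 hky G N1 (κ0 / 4) hN1 hfew
    -- the windows are in the set
    have hsub : tgt X x y G ⊆ (Icc 1 ⌊4 * X⌋₊).filter (fun n : ℕ =>
        (((Ioc n (n + ⌊c * (Real.log n) ^ u⌋₊)).filter Nat.Prime).card : ℝ) ≤
          (1 - κ0 / 4) * (c * (Real.log n) ^ (u - 1))) := by
      intro n hn
      have hn1 := Finset.mem_filter.1 hn
      have hn2 := Finset.mem_Icc.1 hn1.1
      obtain ⟨hnX, hnc⟩ := hn1.2
      have hn4 : (n : ℝ) ≤ 4 * X := by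
        have h1 : (n : ℝ) ≤ ⌊3 * X⌋₊ + x := by exact_mod_cast hn2.2
        have h2 : (⌊3 * X⌋₊ : ℝ) ≤ 3 * X := Nat.floor_le (by positivity)
        linarith
      refine Finset.mem_filter.2 ⟨Finset.mem_Icc.2 ⟨hn2.1, Nat.le_floor hn4⟩, ?_⟩
      have hn0 : (0 : ℝ) < n := by linarith
      have l1 : L ≤ Real.log n := by
        rw [hL]
        exact Real.log_le_log hXpos hnX.le
      have l2 : Real.log n ≤ L + 2 := by
        have a1 : Real.log n ≤ Real.log (4 * X) := Real.log_le_log hn0 hn4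
        rw [Real.log_mul (by norm_num) hXpos.ne', ← hL] at a1
        have a2 : Real.log 4 ≤ 2 := by
          rw [show (4 : ℝ) = 2 ^ 2 by norm_num, Real.log_pow]
          have := Real.log_two_lt_d9
          push_cast; linarith
        linarith
      rw [cnt_card]
      have s6 : ⌊c * (Real.log n) ^ u⌋₊ ≤ y := by
        rw [hy]
        apply Nat.floor_le_floor
        refine le_trans ?_ g5
        have hpow : (Real.log n) ^ u ≤ (L + 2) ^ u := Real.rpow_le_rpow (by linarith) l2 (by linarith)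
        exact mul_le_mul_of_nonneg_left hpow hc.le
      have s7 : (cnt n ⌊c * (Real.log n) ^ u⌋₊ : ℝ) ≤ cnt n y := by exact_mod_cast cnt_mono n s6
      refine s7.trans (hnc.trans ?_)
      rw [hG]
      refine mul_le_mul_of_nonneg_left ?_ hκ.le
      exact mul_le_mul_of_nonneg_left (Real.rpow_le_rpow hL0.le l1 (by linarith)) hc.le
    have hcard : ((tgt X x y G).card : ℝ) ≤ (((Icc 1 ⌊4 * X⌋₊).filter (fun n : ℕ =>
        (((Ioc n (n + ⌊c * (Real.log n) ^ u⌋₊)).filter Nat.Prime).card : ℝ) ≤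
          (1 - κ0 / 4) * (c * (Real.log n) ^ (u - 1)))).card : ℝ) := by
      exact_mod_cast Finset.card_le_card hsub
    refine le_trans ?_ (hcnt.trans hcard)
    refine (rpow_four hXpos hη).trans ?_
    refine (mul_le_mul_of_nonneg_left g6 (by norm_num)).trans ?_
    have q1 : X / 40 / W ≤ N1 := by
      refine le_trans ?_ r3
      have : 1 / 2 ≤ 1 - ε / 2 / 4 := by linarith
      calc X / 40 / W = 1 / 2 * (X / 20 / W) := by ring
        _ ≤ (1 - ε / 2 / 4) * (M / W) := by gcongr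
    have hL1 : 1 ≤ L := by linarith
    calc 4 / 3 * (3 * κ0 / 640 * (X / (Real.exp (3 / 2 * (L / D)) * L ^ 4)))
        ≤ 4 / 3 * (3 * κ0 / 640 * (X / (Real.exp (3 / 2 * (L / D)) * 1))) := by
          gcongr
          exact one_le_pow₀ hL1
      _ ≤ 4 / 3 * (3 * κ0 / 640 * (X / (W * 1))) := by gcongr
      _ = κ0 / 4 * (X / 40 / W) := by ring
      _ ≤ κ0 / 4 * N1 := by gcongr
  have htend : Tendsto (fun x : ℕ => (x : ℝ) / 4) atTop atTop :=
    tendsto_natCast_atTop_atTop.atTop_div_const (by norm_num)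
  filter_upwards [htend.eventually key] with x hx
  have h6 : 4 * ((x : ℝ) / 4) = x := by ring
  rw [h6, Nat.floor_natCast] at hx
  convert hx

end Pool.Agent.Q225.MG
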